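import Pool.Agent.TH130.CI.Cb

/-!
A superpolynomial Cayley–Bacharach bound for complete intersections of quadrics, over any field.
-/

open MvPolynomial

namespace Pool.Agent.Results.MP_b4b81f_ag.QuasiPolynomial

/-- Let `K` be any field, let the quadratic forms `q_1, …, q_c` in `c + 1` variables form a regular
sequence with ideal `I`, and let `f ∉ I` be a form of degree `d`.  If `c - d ≥ 2 * 3 ^ m`, then the
Hilbert function of `S / (I, f)` is at most `2 ^ c - 3 * 2 ^ m * 3 ^ (m (m - 1) / 2)` in all degrees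
`≥ c + d`; so this is also a bound for `deg (S / (I, f))`. -/
theorem result (K : Type*) [Field K] (c : ℕ) (qs : Fin c → MvPolynomial (Fin (c + 1)) K)
    (hq : ∀ i, (qs i).IsHomogeneous 2)
    (hreg : RingTheory.Sequence.IsRegular (MvPolynomial (Fin (c + 1)) K) (List.ofFn qs))
    (d m : ℕ) (f : MvPolynomial (Fin (c + 1)) K) (hf : f.IsHomogeneous d)
    (hfI : f ∉ Ideal.span (Set.range qs)) (hm : d + 2 * 3 ^ m ≤ c) :
    ∀ n : ℕ, c + d ≤ n →
      Module.finrank K
        (↥(homogeneousSubmodule (Fin (c + 1)) K n) ⧸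
          Submodule.comap (homogeneousSubmodule (Fin (c + 1)) K n).subtype
            (Submodule.restrictScalars K (Ideal.span (Set.range qs) ⊔ Ideal.span {f}))) +
        3 * 2 ^ m * 3 ^ (m * (m - 1) / 2) ≤ 2 ^ c := by
  intro n hn
  have h1 := TH130CI.cb_bound' (a := fun _ => 2) hq (fun _ => by norm_num)
    (H503R3.QCI.reg_of_isWeaklyRegular hreg.toIsWeaklyRegular) (A := 2) (by norm_num)
    (fun _ => le_rfl) hf hfI (m := m) (by simp; omega) (n - d) (by simp; omega)
  rw [show d + (n - d) = n by omega, Nat.choose_two_right, Finset.prod_const,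
    Finset.card_univ, Fintype.card_fin] at h1
  rw [TH130CI.finrank_quot]
  calc _ = _ := by ring
    _ ≤ 2 ^ c := h1

end Pool.Agent.Results.MP_b4b81f_ag.QuasiPolynomial
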