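import Pool.Agent.TH130.CI.Cb2

/-!
The Cayley–Bacharach bound for complete intersections of quadrics of which some are reducible.
-/

open MvPolynomial

namespace Pool.Agent.Results.MP_b4b81f_ag.ReducibleQuadrics

/-- Let `K` be any field, let the quadratic forms `q_1, …, q_c` in `c + 1` variables form a regular
sequence with ideal `I`, and suppose that the `q_t` with `t ∈ R` are products of two linear forms.
Let `f ∉ I` be a form of degree `d`.  Then the Hilbert function of `S / (I, f)` is at most
`2 ^ c - 2 ^ (|R| - d)` in all degrees `≥ c + d`; so this is also a bound for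
`deg (S / (I, f))`. -/
theorem result (K : Type*) [Field K] (c : ℕ) (qs : Fin c → MvPolynomial (Fin (c + 1)) K)
    (hq : ∀ i, (qs i).IsHomogeneous 2)
    (hreg : RingTheory.Sequence.IsRegular (MvPolynomial (Fin (c + 1)) K) (List.ofFn qs))
    (R : Finset (Fin c)) (hR : ∀ t ∈ R, ∃ g h : MvPolynomial (Fin (c + 1)) K,
      g.IsHomogeneous 1 ∧ h.IsHomogeneous 1 ∧ qs t = g * h)
    (d : ℕ) (f : MvPolynomial (Fin (c + 1)) K) (hf : f.IsHomogeneous d)
    (hfI : f ∉ Ideal.span (Set.range qs)) :
    ∀ n : ℕ, c + d ≤ n →
      Module.finrank K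
        (↥(homogeneousSubmodule (Fin (c + 1)) K n) ⧸
          Submodule.comap (homogeneousSubmodule (Fin (c + 1)) K n).subtype
            (Submodule.restrictScalars K (Ideal.span (Set.range qs) ⊔ Ideal.span {f}))) +
        2 ^ (R.card - d) ≤ 2 ^ c := by
  classical
  choose! g0 g1 hg0 hg1 hqg using hR
  let k : Fin c → ℕ := fun t => if t ∈ R then 2 else 1
  let g : (t : Fin c) → Fin (k t) → MvPolynomial (Fin (c + 1)) K := fun t j =>
    if t ∈ R then (if j.1 = 0 then g0 t else g1 t) else qs t
  let e : (t : Fin c) → Fin (k t) → ℕ := fun t _ => if t ∈ R then 1 else 2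
  have hkR : ∀ t ∈ R, k t = 2 := fun t ht => if_pos ht
  have hkn : ∀ t, t ∉ R → k t = 1 := fun t ht => if_neg ht
  have hk : ∀ t, 1 ≤ k t := by
    intro t
    by_cases ht : t ∈ R
    · rw [hkR t ht]; norm_num
    · rw [hkn t ht]
  have he : ∀ t j, 1 ≤ e t j := by
    intro t j
    by_cases ht : t ∈ R
    · simp only [e, if_pos ht]; exact le_rfl
    · simp only [e, if_neg ht]; norm_num
  have hsum : ∀ t, ∑ j, e t j = 2 := by
    intro t
    by_cases ht : t ∈ R
    · simp only [e, if_pos ht, Finset.sum_const, Finset.card_univ, Fintype.card_fin, hkR t ht]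
      norm_num
    · simp only [e, if_neg ht, Finset.sum_const, Finset.card_univ, Fintype.card_fin, hkn t ht]
      norm_num
  obtain ⟨u, hu1, hu2, hu3⟩ := TH130CI.cb_fac' (f := qs) (k := k) (g := g) (e := e) hk he
    (by
      intro t j
      by_cases ht : t ∈ R
      · simp only [g, e, if_pos ht]
        split_ifs
        · exact hg0 t ht
        · exact hg1 t ht
      · simp only [g, e, if_neg ht]
        exact hq t)
    (by
      intro t
      by_cases ht : t ∈ R
      · simp only [g, if_pos ht]
        have h5 : ∏ x : Fin (k t), (if x.1 = 0 then g0 t else g1 t) = g0 t * g1 t := by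
          have h6 := Fintype.prod_equiv (finCongr (hkR t ht))
            (fun x : Fin (k t) => if x.1 = 0 then g0 t else g1 t)
            (fun j : Fin 2 => if j.1 = 0 then g0 t else g1 t) (fun l => rfl)
          rw [h6, Fin.prod_univ_two]
          rfl
        rw [h5]
        exact hqg t ht
      · simp only [g, if_neg ht, Finset.prod_const, Finset.card_univ, Fintype.card_fin, hkn t ht,
          pow_one])
    (H503R3.QCI.reg_of_isWeaklyRegular hreg.toIsWeaklyRegular) hf hfI
  intro n hn
  have h1 := hu3 (n - d) (by simp only [hsum]; simp; omega)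
  rw [show d + (n - d) = n by omega] at h1
  simp only [hsum, Finset.prod_const, Finset.card_univ, Fintype.card_fin] at h1
  have h2 := TH130CI.two_pow_le (R := R) hu1 hu2 (fun t ht => (hkR t ht).ge)
  rw [TH130CI.finrank_quot]
  omega

end Pool.Agent.Results.MP_b4b81f_ag.ReducibleQuadrics
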